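import Pool.Agent.Lib.MP_e28e82_lc.Defs

/-!
Counting breakpoints of densities and intervals of pieces.
-/

namespace Pool.Agent.Lib.MP_e28e82_lc

open MeasureTheory Set

/-- The density is constant between at most `N` breakpoints. -/
def Density.BreaksLe (f : Density) (N : ℕ) : Prop :=
  ∃ s : Finset ℝ, s.card ≤ N ∧ ∀ x ∈ Icc (0 : ℝ) 1, ∀ y ∈ Icc (0 : ℝ) 1,
    (∀ z ∈ s, z ∉ uIcc x y) → f.val x = f.val y

/-- Up to a null set, the piece is a union of at most `K` intervals. -/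
def IntervalsLe (A : Set ℝ) (K : ℕ) : Prop :=
  ∃ s : Finset (Set ℝ), s.card ≤ K ∧ (∀ J ∈ s, J.OrdConnected) ∧
    A =ᵐ[volume] (⋃ J ∈ s, J : Set ℝ)

end Pool.Agent.Lib.MP_e28e82_lc
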