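import Pool.Agent.Lib.MP_e28e82_lc.Item.Two
import Pool.Agent.Lib.MP_e28e82_lc.Item.Defs
import Pool.Agent.Lib.MP_e28e82_lc.Reduce

/-! Truthful approximately proportional mechanisms need linearly many intervals. -/

set_option autoImplicit false

namespace Pool.Agent.Lib.MP_e28e82_lc.Item

open MeasureTheory Set

/-- the cells of the grid of mesh `1 / k` -/
def cell (k x : ℕ) : Set ℝ := Ico ((x : ℝ) / k) ((x + 1 : ℝ) / k)

theorem pc_cell (k x : ℕ) : PC (cell k x) := PC.Ico _ _

theorem vol_cell {k : ℕ} (hk : 0 < k) (x : ℕ) : volume.real (cell k x) = 1 / k := by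
  have : (0 : ℝ) < k := by exact_mod_cast hk
  rw [cell, Real.volume_real_Ico_of_le (by gcongr; linarith)]
  ring

theorem m_cell {k x : ℕ} (hx : x < k) : m.real (cell k x) = 1 / k := by
  have hk : (0 : ℝ) < k := by exact_mod_cast (Nat.zero_le x).trans_lt hx
  have h1 : (x + 1 : ℝ) ≤ k := by exact_mod_cast hx
  rw [← vol_cell ((Nat.zero_le x).trans_lt hx) x, Measure.real, Measure.real,
    m_eq_volume (pc_cell k x).measurableSet]
  intro y hy
  exact ⟨le_trans (by positivity) hy.1, hy.2.le.trans ((div_le_one hk).2 h1)⟩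

theorem m_cell_le {k : ℕ} (hk : 0 < k) (x : ℕ) : m.real (cell k x) ≤ 1 / k := by
  rw [← vol_cell hk x]
  refine ENNReal.toReal_mono ?_ (Measure.restrict_le_self _)
  simp [cell]

/-- the share of a cell -/
noncomputable def share (k : ℕ) (X : Set ℝ) (x : ℕ) : ℝ := k * m.real (X ∩ cell k x)

theorem share_add {k : ℕ} (hk : 0 < k) {X Y : Set ℝ} (hY : MeasurableSet Y) (h : Disjoint X Y)
    (x : ℕ) : share k X x + share k Y x ≤ 1 := by
  have h0 : (0 : ℝ) < k := by exact_mod_cast hk
  have h1 := measureReal_union (μ := m) (h.mono inter_subset_left inter_subset_left :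
    Disjoint (X ∩ cell k x) (Y ∩ cell k x)) (hY.inter (pc_cell k x).measurableSet)
  have h2 : m.real (X ∩ cell k x ∪ Y ∩ cell k x) ≤ m.real (cell k x) :=
    measureReal_mono (union_subset inter_subset_right inter_subset_right)
  have h3 := m_cell_le hk x
  rw [le_div_iff₀ h0] at h3
  unfold share
  nlinarith

open Classical in
theorem cut_le {k K : ℕ} {X : Set ℝ} (h : IntervalsLe X K) :
    ((Finset.range k).filter fun x => share k X x ≠ 0 ∧ share k X x ≠ 1).card ≤ 2 * K + 1 := by
  obtain ⟨s, hs, hc, hX⟩ := h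
  have hX' : X =ᵐ[m] (⋃ J ∈ s, J : Set ℝ) := ae_restrict_of_ae hX
  let T : Set ℝ → Finset ℕ := fun J =>
    (Finset.range k).filter fun x => (J ∩ cell k x).Nonempty ∧ ¬ cell k x ⊆ J
  have h2 : ∀ J ∈ s, (T J).card ≤ 2 := by
    intro J hJ
    rcases (T J).eq_empty_or_nonempty with e | hne
    · simp [e]
    refine le_trans (Finset.card_le_card (t := {(T J).min' hne, (T J).max' hne}) fun x hx => ?_)
      Finset.card_le_two
    by_contra hn
    simp only [Finset.mem_insert, Finset.mem_singleton, not_or] at hn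
    have l1 := lt_of_le_of_ne ((T J).min'_le x hx) (Ne.symm hn.1)
    have l2 := lt_of_le_of_ne ((T J).le_max' x hx) hn.2
    obtain ⟨a, a1, a2⟩ := (Finset.mem_filter.1 ((T J).min'_mem hne)).2.1
    obtain ⟨b, b1, b2⟩ := (Finset.mem_filter.1 ((T J).max'_mem hne)).2.1
    refine (Finset.mem_filter.1 hx).2.2 fun y hy => (hc J hJ).out a1 b1 ⟨?_, ?_⟩
    · refine a2.2.le.trans (le_trans ?_ hy.1)
      gcongr
      exact_mod_cast l1
    · refine hy.2.le.trans (le_trans ?_ b2.1)
      gcongr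
      exact_mod_cast l2
  calc _ ≤ (s.biUnion T).card := by
        refine Finset.card_le_card fun x hx => ?_
        obtain ⟨x1, x2, x3⟩ := Finset.mem_filter.1 hx
        have e : share k X x = k * m.real ((⋃ J ∈ s, J) ∩ cell k x) := by
          exact congrArg _ (measureReal_congr (hX'.inter (ae_eq_refl (cell k x))))
        have hk : (0 : ℝ) < k := by
          exact_mod_cast (Nat.zero_le x).trans_lt (Finset.mem_range.1 x1)
        have n1 : ((⋃ J ∈ s, J) ∩ cell k x).Nonempty := by
          rw [nonempty_iff_ne_empty]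
          intro e0
          rw [e, e0] at x2
          simp at x2
        obtain ⟨y, y1, y2⟩ := n1
        obtain ⟨J, hJ, hy⟩ := mem_iUnion₂.1 y1
        refine Finset.mem_biUnion.2 ⟨J, hJ, Finset.mem_filter.2 ⟨x1, ⟨y, hy, y2⟩, fun hsub => x3 ?_⟩⟩
        rw [e, inter_eq_right.2 (hsub.trans (subset_iUnion₂ (s := fun J (_ : J ∈ s) => J) J hJ)),
          m_cell (Finset.mem_range.1 x1)]
        field_simp
    _ ≤ s.card * 2 := Finset.card_biUnion_le_card_mul _ _ _ h2
    _ ≤ _ := by omega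

theorem sum_cell {k N : ℕ} {τ : Ty} (h : Good k N τ) :
    ∑ j ∈ Finset.range N, τ.1 j * m.real (cell k (τ.2 j)) = (∑ j ∈ Finset.range N, τ.1 j) / k := by
  rw [Finset.sum_div]
  refine Finset.sum_congr rfl fun j hj => ?_
  rw [m_cell (h.lt j (Finset.mem_range.1 hj))]
  ring

open Classical in
/-- the density of a type -/
noncomputable def dens {k : ℕ} (hk : 0 < k) (N : ℕ) (τ : Ty) : Density :=
  if h : Good k N τ then step N (fun j => cell k (τ.2 j)) (fun _ => pc_cell _ _) τ.1 h.nn
    (by rw [sum_cell h]; exact div_pos h.pos (by exact_mod_cast hk)) else one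

theorem dens_value {k N : ℕ} (hk : 0 < k) {τ : Ty} (h : Good k N τ) {X : Set ℝ}
    (hX : MeasurableSet X) (hs : X ⊆ Icc 0 1) :
    (dens hk N τ).value X = val N τ (share k X) / k := by
  have h0 : (k : ℝ) ≠ 0 := by exact_mod_cast hk.ne'
  rw [dens, dif_pos h, Density.value_eq _ hX hs]
  refine (step_integral (fun _ => pc_cell _ _) τ.1 X).trans ?_
  rw [val, Finset.sum_div]
  refine Finset.sum_congr rfl fun j _ => ?_
  rw [share]
  field_simp

theorem dens_total {k N : ℕ} (hk : 0 < k) {τ : Ty} (h : Good k N τ) :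
    (dens hk N τ).value (Icc 0 1) = (∑ j ∈ Finset.range N, τ.1 j) / k := by
  rw [dens, dif_pos h, Density.value_eq _ measurableSet_Icc subset_rfl, ← sum_cell h]
  refine (step_integral (fun _ => pc_cell _ _) τ.1 _).trans (Finset.sum_congr rfl fun j _ => ?_)
  rw [measureReal_congr (μ := m) (t := cell k (τ.2 j))
    (ae_mem_I.mono fun x hx => propext ⟨fun h => h.2, fun h => ⟨hx, h⟩⟩)]

theorem one_breaks (N : ℕ) : one.BreaksLe N :=
  ⟨∅, by simp, fun _ hx _ hy _ => by rw [one_val hx, one_val hy]⟩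

theorem dens_breaks {k : ℕ} (hk : 0 < k) (N : ℕ) (τ : Ty) : (dens hk N τ).BreaksLe (2 * N) := by
  classical
  unfold dens
  split_ifs with h
  swap
  · exact one_breaks _
  refine ⟨(Finset.range N).biUnion fun j => {(τ.2 j : ℝ) / k, (τ.2 j + 1 : ℝ) / k}, ?_,
    fun x _ y _ hz => Finset.sum_congr (s₁ := Finset.range N) rfl fun j hj => ?_⟩
  · refine (Finset.card_biUnion_le_card_mul _ _ 2 fun _ _ => Finset.card_le_two).trans ?_
    rw [Finset.card_range, mul_comm]
  · have z1 := hz _ (Finset.mem_biUnion.2 ⟨j, hj, Finset.mem_insert_self _ _⟩)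
    have z2 := hz _ (Finset.mem_biUnion.2
      ⟨j, hj, Finset.mem_insert_of_mem (Finset.mem_singleton_self _)⟩)
    rw [mem_uIcc] at z1 z2
    have : x ∈ cell k (τ.2 j) ↔ y ∈ cell k (τ.2 j) := by
      simp only [cell, mem_Ico]
      grind
    simp only [indicator, this]

theorem cake (n : ℕ) (hn : 2 ≤ n) (α : ℝ) (hα : 0 < α) : ∃ C : ℕ, ∀ M : Mechanism n,
    M.Truthful → (∀ (f : Fin n → Density) i, α / n * (f i).value (Icc 0 1) ≤ (f i).value (M.alloc f i)) →
    ∀ K : ℕ, ∃ f : Fin n → Density, (∀ j, (f j).BreaksLe (C * (K + 1))) ∧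
      ∃ i, ¬ IntervalsLe (M.alloc f i) K := by
  obtain ⟨C, hC⟩ := two (a := α / n) (ε := 1) (div_pos hα (by exact_mod_cast by omega)) one_pos
  refine ⟨4 * C, fun M hT hF K => ?_⟩
  by_contra hc
  push Not at hc
  obtain ⟨m₀, hm⟩ := hC (2 * K + 1) (by omega)
  have hk : 0 < m₀ + 1 := by omega
  have hk' : (0 : ℝ) < (m₀ + 1 : ℕ) := by exact_mod_cast hk
  set N := (2 * K + 1) * C
  let i₀ : Fin n := ⟨0, by omega⟩
  let i₁ : Fin n := ⟨1, by omega⟩
  have hne : i₀ ≠ i₁ := by simp [i₀, i₁]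
  let F : Ty → Ty → Fin n → Density := fun τ σ => patt i₀ i₁ (dens hk N τ) (dens hk N σ) one
  have hb : ∀ τ, (dens hk N τ).BreaksLe (4 * C * (K + 1)) := fun τ => by
    obtain ⟨s, h1, h2⟩ := dens_breaks hk N τ
    exact ⟨s, h1.trans (by simp only [N]; nlinarith), h2⟩
  have hI : ∀ τ σ i, IntervalsLe (M.alloc (F τ σ) i) K := fun τ σ =>
    hc _ (patt_forall (P := fun d : Density => d.BreaksLe _) (hb τ) (hb σ) (one_breaks _))
  have F0 : ∀ τ σ, F τ σ i₀ = dens hk N τ := fun _ _ => patt_fst _ _ _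
  have F1 : ∀ τ σ, F τ σ i₁ = dens hk N σ := fun _ _ => patt_snd hne _ _ _
  refine hm _ (Nat.le_succ _) (fun τ σ => share (m₀ + 1) (M.alloc (F τ σ) i₀))
    (fun τ σ => share (m₀ + 1) (M.alloc (F τ σ) i₁))
    (fun _ _ _ => mul_nonneg hk'.le measureReal_nonneg)
    (fun _ _ _ => mul_nonneg hk'.le measureReal_nonneg)
    (fun _ _ => share_add hk (M.measurable _ _) (M.disjoint _ _ _ hne))
    (fun τ τ' σ g => ?_) (fun τ σ σ' g => ?_) (fun τ σ g _ => ?_) (fun τ σ g _ => ?_)
    (fun τ σ => cut_le (hI τ σ i₀)) (fun τ σ => cut_le (hI τ σ i₁))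
  · have := hT (F τ σ) i₀ (dens hk N τ')
    rw [update_fst, F0, dens_value hk g (M.measurable _ _) (M.subset _ _),
      dens_value hk g (M.measurable _ _) (M.subset _ _)] at this
    exact (div_le_div_iff_of_pos_right hk').1 this
  · have := hT (F τ σ) i₁ (dens hk N σ')
    rw [update_snd hne, F1, dens_value hk g (M.measurable _ _) (M.subset _ _),
      dens_value hk g (M.measurable _ _) (M.subset _ _)] at this
    exact (div_le_div_iff_of_pos_right hk').1 this
  · have := hF (F τ σ) i₀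
    rw [F0, dens_value hk g (M.measurable _ _) (M.subset _ _), dens_total hk g,
      ← mul_div_assoc] at this
    exact (div_le_div_iff_of_pos_right hk').1 this
  · have := hF (F τ σ) i₁
    rw [F1, dens_value hk g (M.measurable _ _) (M.subset _ _), dens_total hk g,
      ← mul_div_assoc] at this
    exact (div_le_div_iff_of_pos_right hk').1 this

end Pool.Agent.Lib.MP_e28e82_lc.Item
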