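import Mathlib
import Pool.Agent.Lib.MP_41a254_co.FiveRamsey

/-! Truthful allocation of cells to two agents when few cells are cut. -/

set_option autoImplicit false

namespace Pool.Agent.Lib.MP_e28e82_lc.Item

open Finset

/-- a type: the cell `P j` has the value `c j` -/
abbrev Ty := (ℕ → ℝ) × (ℕ → ℕ)

/-- the value of a vector of shares of the cells -/
def val (N : ℕ) (τ : Ty) (s : ℕ → ℝ) : ℝ := ∑ j ∈ range N, τ.1 j * s (τ.2 j)

/-- admissible types -/
structure Good (m N : ℕ) (τ : Ty) : Prop where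
  nn : ∀ j, 0 ≤ τ.1 j
  pos : 0 < ∑ j ∈ range N, τ.1 j
  inj : Set.InjOn τ.2 (range N)
  lt : ∀ j < N, τ.2 j < m

/-- geometric weights -/
noncomputable def wt (j : ℕ) : ℝ := (1 / 3) ^ j

theorem wt_pos (j : ℕ) : 0 < wt j := by unfold wt; positivity

theorem force {N i : ℕ} {Q : ℕ → ℕ} {s s' : ℕ → ℝ} (hi : i < N) (h0 : ∀ x, 0 ≤ s' x)
    (h1 : ∀ x, s x ≤ 1) (h : val N (wt, Q) s' ≤ val N (wt, Q) s) (hS : ∀ j ≤ i, s' (Q j) = 1) :
    1 / 2 < s (Q i) := by
  by_contra hn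
  unfold val at h
  have a1 : ∑ j ∈ range (i + 1), wt j ≤ ∑ j ∈ range N, wt j * s' (Q j) :=
    calc _ = ∑ j ∈ range (i + 1), wt j * s' (Q j) :=
          sum_congr rfl fun j hj => by rw [hS j (by have := mem_range.1 hj; omega), mul_one]
      _ ≤ _ := sum_le_sum_of_subset_of_nonneg (range_subset_range.2 hi)
          fun j _ _ => mul_nonneg (wt_pos j).le (h0 _)
  have a2 := add_sum_erase (range N) (fun j => wt j * s (Q j)) (mem_range.2 hi)
  have a3 := add_sum_erase (range N) wt (mem_range.2 hi)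
  have a4 : ∑ j ∈ (range N).erase i, wt j * s (Q j) ≤ ∑ j ∈ (range N).erase i, wt j :=
    sum_le_sum fun j _ => mul_le_of_le_one_right (wt_pos j).le (h1 _)
  have a5 : ∀ k, ∑ j ∈ range k, wt j = 3 / 2 - 3 / 2 * wt k := by
    intro k
    induction k with
    | zero => simp [wt]
    | succ k ih => rw [sum_range_succ, ih]; unfold wt; ring
  have a6 : wt (i + 1) = wt i / 3 := by unfold wt; ring
  have a7 := mul_le_mul_of_nonneg_left (not_lt.1 hn) (wt_pos i).le
  have a8 := wt_pos N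
  rw [a5] at a1 a3
  simp only at h a2
  linarith

open Classical in
/-- the indices of the band `t` whose cell is taken in full -/
noncomputable def hit (u R t : ℕ) (P : ℕ → ℕ) (s : ℕ → ℝ) : Finset ℕ :=
  (Ico (u * R ^ t) (u * R ^ (t + 1))).filter fun j => s (P j) = 1

open Classical in
theorem bands {m N D u : ℕ} {a ε : ℝ} (hD : 4 ≤ a * D) (hε : 1 ≤ ε * D) (hu : 0 < u)
    {A : Ty → ℕ → ℝ} (h1 : ∀ τ x, A τ x ≤ 1)
    (hA : ∀ τ, Good m N τ → (∀ j, τ.1 j ≤ ε * ∑ j ∈ range N, τ.1 j) →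
      a * ∑ j ∈ range N, τ.1 j ≤ val N τ (A τ))
    (hI : ∀ τ, #((range m).filter fun x => A τ x ≠ 0 ∧ A τ x ≠ 1) ≤ u)
    {P : ℕ → ℕ} (hP : Set.InjOn P (range N)) (hm : ∀ j < N, P j < m) (J : Finset ℕ)
    (hJ : 2 < a * #J) (hN : ∀ t ∈ J, u * (D + 1) ^ (t + 1) ≤ N) :
    ∃ τ, ∃ t ∈ J, ∃ l ∈ J, t < l ∧ u * (D + 1) ^ t ≤ #(hit u (D + 1) t P (A τ)) ∧
      u * (D + 1) ^ l ≤ #(hit u (D + 1) l P (A τ)) := by
  have hD1 : 0 < D := by
    rcases Nat.eq_zero_or_pos D with h | h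
    · rw [h] at hD; norm_num at hD
    · exact h
  have hD0 : (0 : ℝ) < D := by exact_mod_cast hD1
  have hu1 : (1 : ℝ) ≤ u := by exact_mod_cast hu
  have hJ0 : (0 : ℝ) < #J := by
    rcases Nat.eq_zero_or_pos #J with h | h
    · rw [h] at hJ; norm_num at hJ
    · exact_mod_cast h
  set R := D + 1 with hR
  have hpos : ∀ t, (0 : ℝ) < (D * (u * R ^ t) : ℕ) := fun t => by
    exact_mod_cast Nat.mul_pos hD1 (Nat.mul_pos hu (Nat.pow_pos (by omega)))
  let c : ℕ → ℝ := fun j =>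
    ∑ t ∈ J, if j ∈ Ico (u * R ^ t) (u * R ^ (t + 1)) then ((D * (u * R ^ t) : ℕ) : ℝ)⁻¹ else 0
  have c0 : ∀ j, 0 ≤ c j := fun j => sum_nonneg fun t _ => by
    split_ifs
    · exact (inv_pos.2 (hpos t)).le
    · exact le_rfl
  have key : ∀ s : ℕ → ℝ, (∑ j ∈ range N, if s (P j) = 1 then c j else 0) =
      ∑ t ∈ J, (#(hit u R t P s) : ℝ) * ((D * (u * R ^ t) : ℕ) : ℝ)⁻¹ := by
    intro s
    rw [← sum_filter, sum_comm]
    refine sum_congr rfl fun t ht => ?_
    rw [← sum_filter, sum_const, nsmul_eq_mul]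
    congr 3
    ext j
    simp only [hit, mem_filter, mem_range, mem_Ico]
    have := hN t ht
    constructor
    · rintro ⟨⟨-, h2⟩, h3⟩; exact ⟨h3, h2⟩
    · rintro ⟨h3, h2⟩; exact ⟨⟨by omega, h2⟩, h3⟩
  have hc : ∀ t, #(Ico (u * R ^ t) (u * R ^ (t + 1))) = D * (u * R ^ t) := fun t => by
    rw [Nat.card_Ico, pow_succ, hR]
    apply Nat.sub_eq_of_eq_add
    ring
  have tot : ∑ j ∈ range N, c j = #J := by
    have := key fun _ => 1
    simp only [if_true] at this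
    rw [this, card_eq_sum_ones J, Nat.cast_sum]
    refine sum_congr rfl fun t _ => ?_
    have : hit u R t P (fun _ => 1) = Ico (u * R ^ t) (u * R ^ (t + 1)) :=
      filter_true_of_mem fun j _ => rfl
    rw [this, hc, mul_inv_cancel₀ (hpos t).ne', Nat.cast_one]
  have cb : ∀ j, c j ≤ #J * ((D : ℝ) * u)⁻¹ := fun j => by
    rw [← nsmul_eq_mul]
    refine sum_le_card_nsmul _ _ _ fun t _ => ?_
    split_ifs
    · refine inv_anti₀ (by positivity) ?_
      exact_mod_cast Nat.mul_le_mul_left D (Nat.le_mul_of_pos_right u (Nat.pow_pos (by omega)))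
    · positivity
  have b1 := hA (c, P) ⟨c0, by rw [tot]; exact hJ0, hP, hm⟩ fun j => by
    refine (cb j).trans ?_
    show _ ≤ ε * ∑ j ∈ range N, c j
    rw [tot, mul_comm]
    refine mul_le_mul_of_nonneg_right ?_ hJ0.le
    rw [inv_le_iff_one_le_mul₀ (by positivity)]
    nlinarith
  refine ⟨(c, P), ?_⟩
  by_contra hn
  set s := A (c, P)
  have b2 : val N (c, P) s ≤ (∑ j ∈ range N, if s (P j) = 1 then c j else 0) +
      ∑ j ∈ (range N).filter fun j => s (P j) ≠ 0 ∧ s (P j) ≠ 1, c j := by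
    rw [sum_filter, ← sum_add_distrib]
    refine sum_le_sum fun j _ => ?_
    show c j * s (P j) ≤ _
    by_cases e1 : s (P j) = 1
    · simp [e1]
    · by_cases e0 : s (P j) = 0
      · simp [e0]
      · simp only [e1, e0, if_false, ne_eq, not_false_eq_true, and_self, if_true, zero_add]
        exact mul_le_of_le_one_right (c0 j) (h1 _ _)
  have b3 : #((range N).filter fun j => s (P j) ≠ 0 ∧ s (P j) ≠ 1) ≤ u := by
    refine le_trans (card_le_card_of_injOn P (fun j hj => ?_) fun j hj k hk e => ?_) (hI (c, P))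
    · rw [mem_coe, mem_filter] at hj ⊢
      exact ⟨mem_range.2 (hm j (mem_range.1 hj.1)), hj.2⟩
    · rw [mem_coe, mem_filter] at hj hk
      exact hP (by exact_mod_cast hj.1) (by exact_mod_cast hk.1) e
  have b4 : ∑ j ∈ (range N).filter fun j => s (P j) ≠ 0 ∧ s (P j) ≠ 1, c j ≤ #J * (D : ℝ)⁻¹ :=
    calc _ ≤ _ := sum_le_card_nsmul _ _ _ fun j _ => cb j
      _ ≤ u • (#J * ((D : ℝ) * u)⁻¹) := nsmul_le_nsmul_left (by positivity) b3
      _ = _ := by rw [nsmul_eq_mul]; field_simp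
  have h2 : #(J.filter fun t => u * R ^ t ≤ #(hit u R t P s)) ≤ 1 := by
    refine card_le_one.2 fun t ht l hl => ?_
    rw [mem_filter] at ht hl
    by_contra hne
    rcases lt_or_gt_of_ne hne with h | h
    · exact hn ⟨t, ht.1, l, hl.1, h, ht.2, hl.2⟩
    · exact hn ⟨l, hl.1, t, ht.1, h, hl.2, ht.2⟩
  have h3 : ∑ t ∈ J, (#(hit u R t P s) : ℝ) * ((D * (u * R ^ t) : ℕ) : ℝ)⁻¹ ≤
      ∑ t ∈ J, ((if u * R ^ t ≤ #(hit u R t P s) then 1 else 0) + (D : ℝ)⁻¹) := by
    refine sum_le_sum fun t _ => ?_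
    split_ifs with h
    · refine le_add_of_le_of_nonneg ?_ (by positivity)
      rw [mul_inv_le_iff₀ (hpos t), one_mul, ← hc]
      exact_mod_cast card_filter_le _ _
    · rw [zero_add, mul_inv_le_iff₀ (hpos t), Nat.cast_mul, ← mul_assoc,
        inv_mul_cancel₀ hD0.ne', one_mul]
      exact_mod_cast (not_le.1 h).le
  rw [sum_add_distrib, sum_boole, sum_const, nsmul_eq_mul] at h3
  have h4 : ((#(J.filter fun t => u * R ^ t ≤ #(hit u R t P s)) : ℕ) : ℝ) ≤ 1 := by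
    exact_mod_cast h2
  have h5 : 4 * (D : ℝ)⁻¹ ≤ a := by rwa [mul_inv_le_iff₀ hD0]
  have h6 : a * #J ≤ val N (c, P) s := by rw [← tot]; exact b1
  rw [key] at b2
  nlinarith [mul_le_mul_of_nonneg_left h5 hJ0.le]

/-- Ramsey theorem for increasing tuples -/
theorem ram_tuple (κ : Type) [Fintype κ] [Nonempty κ] (N n : ℕ) : ∃ m₀, ∀ m, m₀ ≤ m →
    ∀ c : (Fin N → ℕ) → κ, ∃ e : ℕ → ℕ, (∀ i < n, e i < m) ∧ (∀ i j, i < j → j < n → e i < e j) ∧
      ∃ t, ∀ p : ℕ → ℕ, (∀ i j, i < j → j < N → p i < p j) → (∀ j < N, p j < n) →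
        c (fun j => e (p j)) = t := by
  classical
  obtain ⟨m₀, h⟩ := MP_41a254_co.Five.ram κ N n
  refine ⟨m₀, fun m hm c => ?_⟩
  obtain ⟨H, h1, h2, t, h3⟩ := h (range m) (by simpa using hm)
    fun T => if hT : #T = N then c (T.orderEmbOfFin hT) else c fun _ => 0
  obtain ⟨e, e1, e2⟩ := MP_41a254_co.Five.exists_enum H n h2
  refine ⟨e, fun i hi => mem_range.1 (h1 (e1 i hi)), e2, t, fun p p1 p2 => ?_⟩
  have hs : StrictMono fun j : Fin N => e (p j) := fun i j hij =>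
    e2 _ _ (p1 _ _ hij j.2) (p2 _ j.2)
  have hc : #(univ.image fun j : Fin N => e (p j)) = N := by
    rw [card_image_of_injective _ hs.injective, card_univ, Fintype.card_fin]
  have := h3 _ (fun x hx => by
    obtain ⟨j, -, rfl⟩ := mem_image.1 hx
    exact e1 _ (p2 _ j.2)) hc
  rw [dif_pos hc, ← orderEmbOfFin_unique hc (fun j => mem_image_of_mem _ (mem_univ j)) hs] at this
  exact this

end Pool.Agent.Lib.MP_e28e82_lc.Item
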