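import Pool.Agent.Lib.MP_e28e82_lc.Item.Two
import Pool.Agent.Lib.MP_e28e82_lc.Reduce

/-! Indivisible goods with free disposal. -/

set_option autoImplicit false

namespace Pool.Agent.Lib.MP_e28e82_lc.Item

open Finset NNReal

/-- the additive valuation of a type -/
noncomputable def worth (k N : ℕ) (τ : Ty) (x : Fin k) : ℝ≥0 :=
  ∑ j ∈ range N, if τ.2 j = x then (τ.1 j).toNNReal else 0

/-- the indicator of a bundle -/
noncomputable def bit {k : ℕ} (S : Finset (Fin k)) (x : ℕ) : ℝ :=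
  if x ∈ S.map Fin.valEmbedding then 1 else 0

theorem sum_worth {k N : ℕ} {τ : Ty} (h : Good k N τ) (S : Finset (Fin k)) :
    ((∑ x ∈ S, worth k N τ x : ℝ≥0) : ℝ) = val N τ (bit S) := by
  unfold worth val bit
  rw [sum_comm, NNReal.coe_sum]
  refine sum_congr rfl fun j _ => ?_
  have := sum_map S Fin.valEmbedding fun x => if τ.2 j = x then (τ.1 j).toNNReal else 0
  simp only [Fin.valEmbedding_apply] at this
  rw [← this, sum_ite_eq]
  split_ifs
  · rw [Real.coe_toNNReal _ (h.nn j), mul_one]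
  · simp

theorem tot_worth {k N : ℕ} {τ : Ty} (h : Good k N τ) :
    ((∑ x, worth k N τ x : ℝ≥0) : ℝ) = ∑ j ∈ range N, τ.1 j := by
  rw [sum_worth h]
  refine sum_congr rfl fun j hj => ?_
  have : τ.2 j ∈ (univ : Finset (Fin k)).map Fin.valEmbedding :=
    mem_map.2 ⟨⟨_, h.lt j (mem_range.1 hj)⟩, mem_univ _, rfl⟩
  rw [bit, if_pos this, mul_one]

theorem worth_le {k N : ℕ} {τ : Ty} (h : Good k N τ) {b : ℝ} (hb : ∀ j, τ.1 j ≤ b) (x : Fin k) :
    (worth k N τ x : ℝ) ≤ b := by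
  unfold worth
  rw [← sum_filter, NNReal.coe_sum]
  have h1 : #((range N).filter fun j => τ.2 j = x) ≤ 1 := by
    refine card_le_one.2 fun j hj i hi => ?_
    rw [mem_filter] at hj hi
    exact h.inj (by exact_mod_cast hj.1) (by exact_mod_cast hi.1) (hj.2.trans hi.2.symm)
  calc _ ≤ #((range N).filter fun j => τ.2 j = x) • b := sum_le_card_nsmul _ _ _ fun j _ => by
        rw [Real.coe_toNNReal _ (h.nn j)]; exact hb j
    _ ≤ 1 • b := nsmul_le_nsmul_left ((h.nn 0).trans (hb 0)) h1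
    _ = b := one_nsmul b

theorem goods (n : ℕ) (hn : 2 ≤ n) (a ε : ℝ≥0) (ha : 0 < a) (hε : 0 < ε) : ∃ m₀ : ℕ, ∀ k, m₀ ≤ k →
    ∀ A : (Fin n → Fin k → ℝ≥0) → Fin n → Finset (Fin k),
    (∀ v i j, i ≠ j → Disjoint (A v i) (A v j)) →
    (∀ v i w, ∑ x ∈ A (Function.update v i w) i, v i x ≤ ∑ x ∈ A v i, v i x) →
    ∃ v i, (∀ x, v i x ≤ ε * ∑ y, v i y) ∧ ∑ x ∈ A v i, v i x < a * ∑ y, v i y := by
  classical
  obtain ⟨C, hC⟩ := two (a := a) (ε := ε) ha hε
  obtain ⟨m₀, hm⟩ := hC 1 one_pos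
  refine ⟨m₀, fun k hk A hD hT => ?_⟩
  by_contra hc
  push Not at hc
  set N := 1 * C
  let i₀ : Fin n := ⟨0, by omega⟩
  let i₁ : Fin n := ⟨1, by omega⟩
  have hne : i₀ ≠ i₁ := by simp [i₀, i₁]
  let F : Ty → Ty → Fin n → Fin k → ℝ≥0 := fun τ σ => patt i₀ i₁ (worth k N τ) (worth k N σ) 0
  have F0 : ∀ τ σ, F τ σ i₀ = worth k N τ := fun _ _ => patt_fst _ _ _
  have F1 : ∀ τ σ, F τ σ i₁ = worth k N σ := fun _ _ => patt_snd hne _ _ _
  have b0 : ∀ (S : Finset (Fin k)) x, 0 ≤ bit S x := fun S x => by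
    unfold bit; split_ifs <;> norm_num
  have b1 : ∀ S : Finset (Fin k), #((range k).filter fun x => bit S x ≠ 0 ∧ bit S x ≠ 1) ≤ 1 :=
    fun S => by
      rw [filter_false_of_mem]
      · simp
      · intro x _
        unfold bit
        split_ifs <;> simp
  have fair : ∀ v i τ, v i = worth k N τ → Good k N τ →
      (∀ j, τ.1 j ≤ ε * ∑ j ∈ range N, τ.1 j) →
      a * ∑ j ∈ range N, τ.1 j ≤ val N τ (bit (A v i)) := by
    intro v i τ e g h
    have := hc v i fun x => by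
      rw [e, ← NNReal.coe_le_coe, NNReal.coe_mul, tot_worth g]
      exact worth_le g h x
    rwa [e, ← NNReal.coe_le_coe, NNReal.coe_mul, tot_worth g, sum_worth g] at this
  refine hm k hk (fun τ σ => bit (A (F τ σ) i₀)) (fun τ σ => bit (A (F τ σ) i₁))
    (fun _ _ => b0 _) (fun _ _ => b0 _) (fun τ σ x => ?_) (fun τ τ' σ g => ?_)
    (fun τ σ σ' g => ?_) (fun τ σ => fair _ _ τ (F0 τ σ)) (fun τ σ => fair _ _ σ (F1 τ σ))
    (fun _ _ => b1 _) (fun _ _ => b1 _)
  · unfold bit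
    split_ifs with h1 h2
    · exact absurd h2 (disjoint_left.1 ((disjoint_map _).2 (hD _ _ _ hne)) h1)
    all_goals norm_num
  · have := hT (F τ σ) i₀ (worth k N τ')
    rwa [update_fst, F0, ← NNReal.coe_le_coe, sum_worth g, sum_worth g] at this
  · have := hT (F τ σ) i₁ (worth k N σ')
    rwa [update_snd hne, F1, ← NNReal.coe_le_coe, sum_worth g, sum_worth g] at this

end Pool.Agent.Lib.MP_e28e82_lc.Item
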