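import Pool.Agent.Lib.MP_e28e82_lc.Defs

/-!
Pieces that cut inside an interval on which all densities are constant.
-/

namespace Pool.Agent.Lib.MP_e28e82_lc

open MeasureTheory Set

/-- On some open interval inside the cake every density `f j` is constantly `r j`, and both the
piece `A` and its complement have positive length in that interval. -/
def SplitsAt {n : ℕ} (f : Fin n → Density) (A : Set ℝ) (r : Fin n → ℝ) : Prop :=
  ∃ x y : ℝ, (∀ z ∈ Ioo x y, z ∈ Icc (0 : ℝ) 1 ∧ ∀ j, (f j).val z = r j) ∧
    0 < volume (A ∩ Ioo x y) ∧ 0 < volume (Ioo x y \ A)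

end Pool.Agent.Lib.MP_e28e82_lc
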