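import Pool.Agent.Lib.MP_e28e82_lc.Item.Two2
import Pool.Agent.Lib.MP_e28e82_lc.Item.Cake
import Pool.Agent.Lib.MP_e28e82_lc.Item.SplitDefs

/-! Truthful approximately proportional mechanisms split linearly many reported cells. -/

set_option autoImplicit false

namespace Pool.Agent.Lib.MP_e28e82_lc.Item

open MeasureTheory Set

theorem mem_cell_iff {k x a : ℕ} (hk : 0 < k) {z : ℝ} (hz : z ∈ cell k x) :
    z ∈ cell k a ↔ a = x := by
  have h0 : (0 : ℝ) < k := by exact_mod_cast hk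
  refine ⟨fun ha => ?_, fun e => e ▸ hz⟩
  have h1 := (div_lt_div_iff_of_pos_right h0).1 (ha.1.trans_lt hz.2)
  have h2 := (div_lt_div_iff_of_pos_right h0).1 (hz.1.trans_lt ha.2)
  have h3 : a < x + 1 := by exact_mod_cast h1
  have h4 : x < a + 1 := by exact_mod_cast h2
  omega

theorem cell_sub {k x : ℕ} (hx : x < k) : cell k x ⊆ Icc (0 : ℝ) 1 := by
  have hk : (0 : ℝ) < k := by exact_mod_cast (Nat.zero_le x).trans_lt hx
  have h1 : (x + 1 : ℝ) ≤ k := by exact_mod_cast hx
  intro y hy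
  exact ⟨le_trans (by positivity) hy.1, hy.2.le.trans ((div_le_one hk).2 h1)⟩

/-- constant on the cells of the grid -/
def Flat (k : ℕ) (d : Density) : Prop :=
  ∀ x < k, ∀ z ∈ cell k x, ∀ w ∈ cell k x, d.val z = d.val w

theorem one_flat (k : ℕ) : Flat k one := fun _ hx _ hz _ hw => by
  rw [one_val (cell_sub hx hz), one_val (cell_sub hx hw)]

theorem dens_flat {k : ℕ} (hk : 0 < k) (N : ℕ) (τ : Ty) : Flat k (dens hk N τ) := by
  classical
  unfold dens
  split_ifs with h
  swap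
  · exact one_flat _
  intro x _ z hz w hw
  refine Finset.sum_congr (s₁ := Finset.range N) rfl fun j _ => ?_
  simp only [indicator, mem_cell_iff hk hz, mem_cell_iff hk hw]

theorem dens_wt {k N : ℕ} (hk : 0 < k) {P : ℕ → ℕ} (h : Good k N (wt, P)) {j : ℕ} (hj : j < N)
    {z : ℝ} (hz : z ∈ cell k (P j)) : (dens hk N (wt, P)).val z = wt j := by
  classical
  rw [dens, dif_pos h]
  show ∑ i ∈ Finset.range N, (cell k (P i)).indicator (fun _ => wt i) z = _
  rw [Finset.sum_eq_single_of_mem j (Finset.mem_range.2 hj), indicator_of_mem hz]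
  intro i hi hij
  refine indicator_of_notMem (fun hm => hij ?_) _
  exact h.inj (by simpa using hi) (by simpa using hj) ((mem_cell_iff hk hz).1 hm)

theorem wt_inj : Function.Injective wt :=
  (pow_right_strictAnti₀ (a := (1 / 3 : ℝ)) (by norm_num) (by norm_num)).injective

theorem split_of_share {k x : ℕ} (hx : x < k) {X : Set ℝ} (hX : MeasurableSet X)
    (h0 : share k X x ≠ 0) (h1 : share k X x ≠ 1) :
    0 < volume (X ∩ Ioo ((x : ℝ) / k) ((x + 1 : ℝ) / k)) ∧
      0 < volume (Ioo ((x : ℝ) / k) ((x + 1 : ℝ) / k) \ X) := by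
  have hk : (0 : ℝ) < k := by exact_mod_cast (Nat.zero_le x).trans_lt hx
  have e : (Ioo ((x : ℝ) / k) ((x + 1 : ℝ) / k) : Set ℝ) =ᵐ[volume] cell k x := Ioo_ae_eq_Ico
  have hm := hX.inter (pc_cell k x).measurableSet
  have hs : X ∩ cell k x ⊆ Icc (0 : ℝ) 1 := inter_subset_right.trans (cell_sub hx)
  constructor
  · rw [measure_congr ((ae_eq_refl X).inter e), pos_iff_ne_zero]
    intro hz
    apply h0
    rw [share, Measure.real, m_eq_volume hm hs, hz]
    simp
  · rw [measure_congr (e.diff (ae_eq_refl X)), pos_iff_ne_zero]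
    intro hz
    apply h1
    have := measure_inter_add_sdiff (μ := volume) (cell k x) hX
    rw [hz, add_zero, inter_comm] at this
    rw [share, Measure.real, m_eq_volume hm hs, this, ← Measure.real,
      vol_cell ((Nat.zero_le x).trans_lt hx)]
    field_simp

open Classical in
theorem count_le {n k N K : ℕ} {f : Fin n → Density} (hf : ∀ l, Flat k (f l)) {P : ℕ → ℕ}
    (hP : ∀ j < N, P j < k) (l₀ : Fin n)
    (hw : ∀ j < N, ∀ z ∈ cell k (P j), (f l₀).val z = wt j) {X : Set ℝ} (hX : MeasurableSet X)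
    (h : ∀ s : Finset (Fin n → ℝ), (∀ r ∈ s, SplitsAt f X r) → s.card ≤ K) :
    ((Finset.range N).filter fun j => share k X (P j) ≠ 0 ∧ share k X (P j) ≠ 1).card ≤ K := by
  have hl : ∀ j < N, ((P j : ℝ) / k) ∈ cell k (P j) := fun j hj => by
    have hk : (0 : ℝ) < k := by exact_mod_cast (Nat.zero_le _).trans_lt (hP j hj)
    exact ⟨le_rfl, by gcongr; linarith⟩
  rw [← Finset.card_image_of_injOn (f := fun j l => (f l).val ((P j : ℝ) / k))]
  · refine h _ fun r hr => ?_
    obtain ⟨j, hj, rfl⟩ := Finset.mem_image.1 hr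
    obtain ⟨j1, j2, j3⟩ := Finset.mem_filter.1 hj
    have j0 := Finset.mem_range.1 j1
    refine ⟨_, _, fun z hz => ?_, split_of_share (hP j j0) hX j2 j3⟩
    have hz' : z ∈ cell k (P j) := Ioo_subset_Ico_self hz
    exact ⟨cell_sub (hP j j0) hz', fun l => hf l _ (hP j j0) _ hz' _ (hl j j0)⟩
  · intro i hi j hj e
    have i0 := Finset.mem_range.1 (Finset.mem_filter.1 hi).1
    have j0 := Finset.mem_range.1 (Finset.mem_filter.1 hj).1
    have := congrFun e l₀
    simp only at this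
    rw [hw i i0 _ (hl i i0), hw j j0 _ (hl j j0)] at this
    exact wt_inj this

theorem split (n : ℕ) (hn : 2 ≤ n) (α : ℝ) (hα : 0 < α) : ∃ C : ℕ, ∀ M : Mechanism n,
    M.Truthful →
    (∀ (f : Fin n → Density) i, α / n * (f i).value (Icc 0 1) ≤ (f i).value (M.alloc f i)) →
    ∀ K : ℕ, ∃ f : Fin n → Density, (∀ j, (f j).BreaksLe (C * (K + 1))) ∧
      ∃ (i : Fin n) (s : Finset (Fin n → ℝ)), K < s.card ∧
        ∀ r ∈ s, SplitsAt f (M.alloc f i) r := by
  obtain ⟨C, hC⟩ := two2 (a := α / n) (ε := 1) (div_pos hα (by exact_mod_cast by omega)) one_pos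
  refine ⟨2 * C, fun M hT hF K => ?_⟩
  by_contra hc
  obtain ⟨m₀, hm⟩ := hC (K + 1) (by omega)
  have hk : 0 < m₀ + 1 := by omega
  have hk' : (0 : ℝ) < (m₀ + 1 : ℕ) := by exact_mod_cast hk
  set N := (K + 1) * C
  let i₀ : Fin n := ⟨0, by omega⟩
  let i₁ : Fin n := ⟨1, by omega⟩
  have hne : i₀ ≠ i₁ := by simp [i₀, i₁]
  let F : Ty → Ty → Fin n → Density := fun τ σ => patt i₀ i₁ (dens hk N τ) (dens hk N σ) one
  have hb : ∀ τ, (dens hk N τ).BreaksLe (2 * C * (K + 1)) := fun τ => by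
    obtain ⟨s, h1, h2⟩ := dens_breaks hk N τ
    exact ⟨s, h1.trans (by simp only [N]; nlinarith), h2⟩
  have hI : ∀ τ σ i (s : Finset (Fin n → ℝ)),
      (∀ r ∈ s, SplitsAt (F τ σ) (M.alloc (F τ σ) i) r) → s.card ≤ K + 1 := fun τ σ i s hs => by
    by_contra hlt
    exact hc ⟨F τ σ, patt_forall (P := fun d : Density => d.BreaksLe _) (hb τ) (hb σ)
      (one_breaks _), i, s, by omega, hs⟩
  have hfl : ∀ τ σ l, Flat (m₀ + 1) (F τ σ l) := fun τ σ =>
    patt_forall (P := Flat (m₀ + 1)) (dens_flat hk N τ) (dens_flat hk N σ) (one_flat _)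
  have F0 : ∀ τ σ, F τ σ i₀ = dens hk N τ := fun _ _ => patt_fst _ _ _
  have F1 : ∀ τ σ, F τ σ i₁ = dens hk N σ := fun _ _ => patt_snd hne _ _ _
  refine hm _ (Nat.le_succ _) (fun τ σ => share (m₀ + 1) (M.alloc (F τ σ) i₀))
    (fun τ σ => share (m₀ + 1) (M.alloc (F τ σ) i₁))
    (fun _ _ _ => mul_nonneg hk'.le measureReal_nonneg)
    (fun _ _ _ => mul_nonneg hk'.le measureReal_nonneg)
    (fun _ _ => share_add hk (M.measurable _ _) (M.disjoint _ _ _ hne))
    (fun τ τ' σ g => ?_) (fun τ σ σ' g => ?_) (fun τ σ g _ => ?_) (fun τ σ g _ => ?_)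
    (fun τ P g => count_le (hfl τ _) g.lt i₁
      (fun j hj z hz => by rw [F1]; exact dens_wt hk g hj hz) (M.measurable _ _) (hI τ _ i₀))
    (fun σ Q g => count_le (hfl _ σ) g.lt i₀
      (fun j hj z hz => by rw [F0]; exact dens_wt hk g hj hz) (M.measurable _ _) (hI _ σ i₁))
  · have := hT (F τ σ) i₀ (dens hk N τ')
    rw [update_fst, F0, dens_value hk g (M.measurable _ _) (M.subset _ _),
      dens_value hk g (M.measurable _ _) (M.subset _ _)] at this
    exact (div_le_div_iff_of_pos_right hk').1 this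
  · have := hT (F τ σ) i₁ (dens hk N σ')
    rw [update_snd hne, F1, dens_value hk g (M.measurable _ _) (M.subset _ _),
      dens_value hk g (M.measurable _ _) (M.subset _ _)] at this
    exact (div_le_div_iff_of_pos_right hk').1 this
  · have := hF (F τ σ) i₀
    rw [F0, dens_value hk g (M.measurable _ _) (M.subset _ _), dens_total hk g,
      ← mul_div_assoc] at this
    exact (div_le_div_iff_of_pos_right hk').1 this
  · have := hF (F τ σ) i₁
    rw [F1, dens_value hk g (M.measurable _ _) (M.subset _ _), dens_total hk g,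
      ← mul_div_assoc] at this
    exact (div_le_div_iff_of_pos_right hk').1 this

end Pool.Agent.Lib.MP_e28e82_lc.Item
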