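import Pool.Agent.Lib.MP_e28e82_lc.Item.Split

/-! The statement about the number of intervals follows from the statement about split cells. -/

set_option autoImplicit false

namespace Pool.Agent.Lib.MP_e28e82_lc.Item

open MeasureTheory Set

theorem split_le {n K : ℕ} {f : Fin n → Density} {X : Set ℝ} (h : IntervalsLe X K)
    (t : Finset (Fin n → ℝ)) (ht : ∀ r ∈ t, SplitsAt f X r) : t.card ≤ 2 * K := by
  classical
  obtain ⟨s, hs, hc, hX⟩ := h
  choose! x y h1 h2 h3 using ht
  have key : ∀ r ∈ t, ∃ J ∈ s, ∃ p q, p ∈ J ∧ q ∉ J ∧ p ∈ Ioo (x r) (y r) ∧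
      q ∈ Ioo (x r) (y r) := by
    intro r hr
    have a := h2 r hr
    have b := h3 r hr
    rw [measure_congr (hX.inter (ae_eq_refl _))] at a
    rw [measure_congr ((ae_eq_refl _).diff hX)] at b
    obtain ⟨p, p1, p2⟩ := nonempty_of_measure_ne_zero a.ne'
    obtain ⟨q, q1, q2⟩ := nonempty_of_measure_ne_zero b.ne'
    obtain ⟨J, hJ, hp⟩ := mem_iUnion₂.1 p1
    exact ⟨J, hJ, p, q, hp, fun hq => q2 (mem_iUnion₂.2 ⟨J, hJ, hq⟩), p2, q1⟩
  choose! J hJ p q k1 k2 k3 k4 using key
  have eq : ∀ r ∈ t, ∀ r' ∈ t, ∀ z, z ∈ Ioo (x r) (y r) → z ∈ Ioo (x r') (y r') → r = r' :=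
    fun r hr r' hr' z a b => funext fun j => ((h1 r hr z a).2 j).symm.trans ((h1 r' hr' z b).2 j)
  calc t.card ≤ (s ×ˢ (Finset.univ : Finset Bool)).card := by
        refine Finset.card_le_card_of_injOn (fun r => (J r, decide (p r < q r)))
          (fun r hr => Finset.mem_coe.2 (Finset.mem_product.2 ⟨hJ r hr, Finset.mem_univ _⟩)) fun r hr r' hr' e => ?_
        have e1 : J r = J r' := congrArg Prod.fst e
        have e2 : p r < q r ↔ p r' < q r' := by simpa using congrArg Prod.snd e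
        have c := (hc _ (hJ r hr)).out
        have a1 := k1 r hr
        have a2 := k2 r hr
        have b1 := e1 ▸ k1 r' hr'
        have b2 := e1 ▸ k2 r' hr'
        obtain ⟨u1, u2⟩ := k3 r hr
        obtain ⟨u3, u4⟩ := k4 r hr
        obtain ⟨v1, v2⟩ := k3 r' hr'
        obtain ⟨v3, v4⟩ := k4 r' hr'
        by_cases g : p r < q r
        · have g' := e2.1 g
          have w1 : p r' < q r := not_le.1 fun w => a2 (c a1 b1 ⟨g.le, w⟩)
          have w2 : p r < q r' := not_le.1 fun w => b2 (c b1 a1 ⟨g'.le, w⟩)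
          refine eq r hr r' hr' (max (p r) (p r')) ⟨?_, ?_⟩ ⟨?_, ?_⟩
          · exact lt_max_of_lt_left u1
          · exact max_lt u2 (w1.trans u4)
          · exact lt_max_of_lt_right v1
          · exact max_lt (w2.trans v4) v2
        · have g' := mt e2.2 g
          have w1 : q r < p r' := not_le.1 fun w => a2 (c b1 a1 ⟨w, not_lt.1 g⟩)
          have w2 : q r' < p r := not_le.1 fun w => b2 (c a1 b1 ⟨w, not_lt.1 g'⟩)
          refine eq r hr r' hr' (min (p r) (p r')) ⟨?_, ?_⟩ ⟨?_, ?_⟩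
          · exact lt_min u1 (u3.trans w1)
          · exact min_lt_of_left_lt u2
          · exact lt_min (v3.trans w2) v1
          · exact min_lt_of_right_lt v2
    _ ≤ _ := by
        rw [Finset.card_product]
        simp only [Finset.card_univ, Fintype.card_bool]
        omega

theorem cake_of_split (n : ℕ) (hn : 2 ≤ n) (α : ℝ) (hα : 0 < α) : ∃ C : ℕ, ∀ M : Mechanism n,
    M.Truthful →
    (∀ (f : Fin n → Density) (i : Fin n),
      α / n * (f i).value (Set.Icc 0 1) ≤ (f i).value (M.alloc f i)) →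
    ∀ K : ℕ, ∃ f : Fin n → Density, (∀ j, (f j).BreaksLe (C * (K + 1))) ∧
      ∃ i, ¬ IntervalsLe (M.alloc f i) K := by
  obtain ⟨C, hC⟩ := split n hn α hα
  refine ⟨2 * C, fun M hT hF K => ?_⟩
  obtain ⟨f, hb, i, s, h1, h2⟩ := hC M hT hF (2 * K)
  refine ⟨f, fun j => ?_, i, fun h => absurd (split_le h s h2) (by omega)⟩
  obtain ⟨t, t1, t2⟩ := hb j
  exact ⟨t, t1.trans (by nlinarith), t2⟩

end Pool.Agent.Lib.MP_e28e82_lc.Item
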