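import Pool.Agent.Lib.MP_e28e82_lc.Item.Core

/-! The two-agent impossibility for cells. -/

set_option autoImplicit false

namespace Pool.Agent.Lib.MP_e28e82_lc.Item

open Finset

/-- extension of a tuple by zero -/
def up {N : ℕ} (p : Fin N → ℕ) (j : ℕ) : ℕ := if h : j < N then p ⟨j, h⟩ else 0

theorem up_eq {N : ℕ} (p : ℕ → ℕ) {j : ℕ} (h : j < N) : up (fun k : Fin N => p k) j = p j :=
  dif_pos h

theorem mem_hit {u R t j : ℕ} {P : ℕ → ℕ} {s : ℕ → ℝ} (h : j ∈ hit u R t P s) :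
    u * R ^ t ≤ j ∧ j < u * R ^ (t + 1) ∧ s (P j) = 1 := by
  simp only [hit, mem_filter, mem_Ico] at h
  exact ⟨h.1.1, h.1.2, h.2⟩

open Classical in
theorem two {a ε : ℝ} (ha : 0 < a) (hε : 0 < ε) : ∃ C : ℕ, ∀ u : ℕ, 0 < u → ∃ m₀, ∀ m, m₀ ≤ m →
    ∀ A B : Ty → Ty → ℕ → ℝ, (∀ τ σ x, 0 ≤ A τ σ x) → (∀ τ σ x, 0 ≤ B τ σ x) →
    (∀ τ σ x, A τ σ x + B τ σ x ≤ 1) →
    (∀ τ τ' σ, Good m (u * C) τ → val (u * C) τ (A τ' σ) ≤ val (u * C) τ (A τ σ)) →
    (∀ τ σ σ', Good m (u * C) σ → val (u * C) σ (B τ σ') ≤ val (u * C) σ (B τ σ)) →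
    (∀ τ σ, Good m (u * C) τ → (∀ j, τ.1 j ≤ ε * ∑ j ∈ range (u * C), τ.1 j) →
      a * ∑ j ∈ range (u * C), τ.1 j ≤ val (u * C) τ (A τ σ)) →
    (∀ τ σ, Good m (u * C) σ → (∀ j, σ.1 j ≤ ε * ∑ j ∈ range (u * C), σ.1 j) →
      a * ∑ j ∈ range (u * C), σ.1 j ≤ val (u * C) σ (B τ σ)) →
    (∀ τ σ, #((range m).filter fun x => A τ σ x ≠ 0 ∧ A τ σ x ≠ 1) ≤ u) →
    (∀ τ σ, #((range m).filter fun x => B τ σ x ≠ 0 ∧ B τ σ x ≠ 1) ≤ u) → False := by
  obtain ⟨D, hD⟩ := exists_nat_ge (4 / a + 1 / ε)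
  obtain ⟨K, hK⟩ := exists_nat_gt (2 / a)
  have hD1 : 4 ≤ a * D := by
    rw [mul_comm, ← div_le_iff₀ ha]
    linarith [one_div_pos.2 hε]
  have hD2 : 1 ≤ ε * D := by
    rw [mul_comm, ← div_le_iff₀ hε]
    linarith [div_pos (by norm_num : (0 : ℝ) < 4) ha]
  have hK1 : 2 < a * K := by rwa [mul_comm, ← div_lt_iff₀ ha]
  refine ⟨(D + 1) ^ ((K + 1) * K), fun u hu => ?_⟩
  set N := u * (D + 1) ^ ((K + 1) * K) with hN
  have mono : ∀ s t, s ≤ t → u * (D + 1) ^ s ≤ u * (D + 1) ^ t := fun s t h =>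
    Nat.mul_le_mul_left u (Nat.pow_le_pow_right (by omega) h)
  have hN0 : 0 < N := Nat.mul_pos hu (Nat.pow_pos (by omega))
  obtain ⟨m₀, hm₀⟩ := ram_tuple (((Fin N → Prop) → Prop) × ((Fin N → Prop) → Prop)) N (2 * N + 1)
  refine ⟨m₀, fun m hm A B A0 B0 AB tA tB fA fB iA iB => ?_⟩
  have A1 : ∀ τ σ x, A τ σ x ≤ 1 := fun τ σ x => by linarith [AB τ σ x, B0 τ σ x]
  have B1 : ∀ τ σ x, B τ σ x ≤ 1 := fun τ σ x => by linarith [AB τ σ x, A0 τ σ x]
  obtain ⟨e, e1, e2, T, hT⟩ := hm₀ m hm fun p =>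
    (fun U => ∃ τ, ∀ j : Fin N, U j → A τ (wt, up p) (up p j) = 1,
      fun U => ∃ σ, ∀ j : Fin N, U j →
        B (wt, fun k => up p (N - 1 - k)) σ (up p (N - 1 - j)) = 1)
  have wpos : 0 < ∑ j ∈ range N, wt j :=
    sum_pos (fun j _ => wt_pos j) ⟨0, mem_range.2 hN0⟩
  have gP : ∀ p : ℕ → ℕ, (∀ i j, i < j → j < N → p i < p j) → (∀ j < N, p j < 2 * N + 1) →
      Good m N (wt, up fun k : Fin N => e (p k)) ∧
      Good m N (wt, fun j => up (fun k : Fin N => e (p k)) (N - 1 - j)) := by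
    intro p p1 p2
    have inj : ∀ i < N, ∀ j < N, up (fun k : Fin N => e (p k)) i =
        up (fun k : Fin N => e (p k)) j → i = j := by
      intro i hi j hj h
      rw [up_eq (fun k => e (p k)) hi, up_eq (fun k => e (p k)) hj] at h
      by_contra hne
      rcases lt_or_gt_of_ne hne with g | g
      · exact absurd h (e2 _ _ (p1 _ _ g hj) (p2 _ hj)).ne
      · exact absurd h (e2 _ _ (p1 _ _ g hi) (p2 _ hi)).ne'
    have lt : ∀ j < N, up (fun k : Fin N => e (p k)) j < m := fun j hj => by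
      rw [up_eq (fun k => e (p k)) hj]
      exact e1 _ (p2 _ hj)
    refine ⟨⟨fun j => (wt_pos j).le, wpos, fun i hi j hj h =>
      inj i (by simpa using hi) j (by simpa using hj) h, lt⟩,
      ⟨fun j => (wt_pos j).le, wpos, fun i hi j hj h => ?_, fun j _ => lt _ (by omega)⟩⟩
    have := inj _ (by omega) _ (by omega) h
    have hi' : i < N := by simpa using hi
    have hj' : j < N := by simpa using hj
    omega
  have h0 := hT (fun j => j) (fun _ _ h _ => h) (fun j hj => by omega)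
  obtain ⟨g1, g2⟩ := gP (fun j => j) (fun _ _ h _ => h) (fun j hj => by omega)
  set P0 := up fun k : Fin N => e k with hP0
  obtain ⟨τ1, t, ht, l, hl, htl, c1, c2⟩ := bands (A := fun τ => A τ (wt, P0)) hD1 hD2 hu
    (fun τ => A1 τ _) (fun τ => fA τ _) (fun τ => iA τ _) g1.inj g1.lt
    ((range K).image fun s => (K + 1) * s)
    (by rw [card_image_of_injective _ (mul_right_injective₀ (by omega)), card_range]; exact hK1)
    (fun t ht => by
      obtain ⟨s, hs, rfl⟩ := mem_image.1 ht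
      have := mem_range.1 hs
      exact mono _ _ (by nlinarith))
  obtain ⟨s1, -, rfl⟩ := mem_image.1 ht
  obtain ⟨s2, hs2, rfl⟩ := mem_image.1 hl
  have hs2' := mem_range.1 hs2
  have hs12 : s1 < s2 := lt_of_mul_lt_mul_left htl (Nat.zero_le _)
  have gap : (K + 1) * s1 + K + 1 ≤ (K + 1) * s2 := by nlinarith
  have top : (K + 1) * s2 + 1 ≤ (K + 1) * K := by nlinarith
  generalize (K + 1) * s1 = t at *
  generalize (K + 1) * s2 = l at *
  obtain ⟨σ1, t2, ht2, l2, hl2, htl2, d1, d2⟩ := bands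
    (A := fun σ => B (wt, fun j => P0 (N - 1 - j)) σ) hD1 hD2 hu
    (fun σ => B1 _ σ) (fun σ => fB _ σ) (fun σ => iB _ σ) g2.inj g2.lt (Ico (t + 1) (t + 1 + K))
    (by rw [Nat.card_Ico, Nat.add_sub_cancel_left]; exact hK1)
    (fun s hs => mono _ _ (by have := mem_Ico.1 hs; omega))
  rw [mem_Ico] at ht2 hl2
  have pos : ∀ s, 0 < u * (D + 1) ^ s := fun s => Nat.mul_pos hu (Nat.pow_pos (by omega))
  obtain ⟨i, hi⟩ := card_pos.1 ((pos _).trans_le c1)
  obtain ⟨i2, hi2⟩ := card_pos.1 ((pos _).trans_le d1)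
  obtain ⟨-, i_lt, i_in⟩ := mem_hit hi
  obtain ⟨-, i2_lt, i2_in⟩ := mem_hit hi2
  have m1 := mono (t + 1) l2 (by omega)
  have m2 := mono (t2 + 1) l (by omega)
  have m3 := mono (t + 1) l (by omega)
  have m4 := mono (t2 + 1) l2 (by omega)
  have m5 := mono (l + 1) _ top
  have m6 := mono (l2 + 1) ((K + 1) * K) (by omega)
  have m7 := mono l (l + 1) (by omega)
  obtain ⟨x, x1, x2⟩ := MP_41a254_co.Five.exists_enum _ i2 (le_trans (by omega) c2)
  obtain ⟨y, y1, y2⟩ := MP_41a254_co.Five.exists_enum _ i (le_trans (by omega) d2)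
  have xb : ∀ j < i2, i < x j ∧ x j < N := fun j hj => by
    have := mem_hit (x1 j hj); omega
  have yb : ∀ j < i, i2 < y j ∧ y j < N := fun j hj => by
    have := mem_hit (y1 j hj); omega
  have iN : i < N := by omega
  have i2N : i2 < N := by omega
  let p : ℕ → ℕ := fun j => if j < i then N - (y (i - 1 - j) - i2) else N + (j - i)
  let q : ℕ → ℕ := fun j => if j < i2 then N + (x (i2 - 1 - j) - i) else N - (j - i2)
  have p1 : ∀ j k, j < k → k < N → p j < p k := by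
    intro j k hjk hk
    simp only [p]
    split_ifs with h1 h2 h2
    · have := y2 (i - 1 - k) (i - 1 - j) (by omega) (by omega)
      have := yb (i - 1 - k) (by omega)
      have := yb (i - 1 - j) (by omega)
      omega
    · have := yb (i - 1 - j) (by omega)
      omega
    · omega
    · omega
  have p2 : ∀ j < N, p j < 2 * N + 1 := by
    intro j hj
    simp only [p]
    split_ifs <;> omega
  have q1 : ∀ j k, j < k → k < N → q (N - 1 - j) < q (N - 1 - k) := by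
    intro j k hjk hk
    simp only [q]
    split_ifs with h1 h2 h2
    · have := x2 (i2 - 1 - (N - 1 - j)) (i2 - 1 - (N - 1 - k)) (by omega) (by omega)
      have := xb (i2 - 1 - (N - 1 - j)) (by omega)
      omega
    · omega
    · have := xb (i2 - 1 - (N - 1 - k)) (by omega)
      omega
    · omega
  have q2 : ∀ j < N, q (N - 1 - j) < 2 * N + 1 := by
    intro j hj
    simp only [q]
    split_ifs with h
    · have := xb (i2 - 1 - (N - 1 - j)) (by omega)
      omega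
    · omega
  have hp := (hT p p1 p2).trans h0.symm
  have hq := (hT _ q1 q2).trans h0.symm
  obtain ⟨G1, -⟩ := gP p p1 p2
  obtain ⟨-, G2⟩ := gP _ q1 q2
  obtain ⟨τ', hτ⟩ := (congrFun (congrArg Prod.fst hp)
    fun j : Fin N => A τ1 (wt, P0) (P0 j) = 1).mpr ⟨τ1, fun _ h => h⟩
  obtain ⟨σ', hσ⟩ := (congrFun (congrArg Prod.snd hq)
    fun j : Fin N => B (wt, fun k => P0 (N - 1 - k)) σ1 (P0 (N - 1 - j)) = 1).mpr
      ⟨σ1, fun _ h => h⟩
  set P := up fun k : Fin N => e (p k) with hP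
  set Q := fun j => up (fun k : Fin N => e (q (N - 1 - k))) (N - 1 - j) with hQ
  have Pe : ∀ j < N, P j = e (p j) := fun j hj => up_eq (fun k => e (p k)) hj
  have Qe : ∀ j < N, Q j = e (q j) := fun j hj => by
    have := up_eq (N := N) (fun k => e (q (N - 1 - k))) (j := N - 1 - j) (by omega)
    rw [show N - 1 - (N - 1 - j) = j by omega] at this
    exact this
  have z : P i = Q i2 := by rw [Pe i iN, Qe i2 i2N]; simp [p, q]
  have f1 := force i2N (A0 τ' (wt, P)) (A1 (wt, Q) (wt, P)) (tA (wt, Q) τ' (wt, P) G2) (by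
    intro j hj
    rcases hj.eq_or_lt with rfl | h
    · rw [← z]; exact hτ ⟨i, iN⟩ i_in
    · obtain ⟨b1, b2⟩ := xb (i2 - 1 - j) (by omega)
      have : Q j = P (x (i2 - 1 - j)) := by
        rw [Qe j (by omega), Pe _ b2]
        simp only [p, q, if_pos h, if_neg (not_lt.2 b1.le)]
      rw [this]
      exact hτ ⟨_, b2⟩ (mem_hit (x1 _ (by omega))).2.2)
  have f2 := force iN (B0 (wt, Q) σ') (B1 (wt, Q) (wt, P)) (tB (wt, Q) (wt, P) σ' G1) (by
    intro j hj
    rcases hj.eq_or_lt with rfl | h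
    · rw [z]; exact hσ ⟨i2, i2N⟩ i2_in
    · obtain ⟨b1, b2⟩ := yb (i - 1 - j) (by omega)
      have : P j = Q (y (i - 1 - j)) := by
        rw [Pe j (by omega), Qe _ b2]
        simp only [p, q, if_pos h, if_neg (not_lt.2 b1.le)]
      rw [this]
      exact hσ ⟨_, b2⟩ (mem_hit (y1 _ (by omega))).2.2)
  have := AB (wt, Q) (wt, P) (P i)
  rw [← z] at f1
  linarith

end Pool.Agent.Lib.MP_e28e82_lc.Item
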