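import Pool.Agent.Lib.MP_e28e82_lc.Item.Two

/-! The two-agent impossibility for cells, counting only cells of the geometric type. -/

set_option autoImplicit false

namespace Pool.Agent.Lib.MP_e28e82_lc.Item

open Finset

open Classical in
theorem bands2 {m N D u : ℕ} {a ε : ℝ} (hD : 4 ≤ a * D) (hε : 1 ≤ ε * D) (hu : 0 < u)
    {A : Ty → ℕ → ℝ} (h1 : ∀ τ x, A τ x ≤ 1)
    (hA : ∀ τ, Good m N τ → (∀ j, τ.1 j ≤ ε * ∑ j ∈ range N, τ.1 j) →
      a * ∑ j ∈ range N, τ.1 j ≤ val N τ (A τ))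
    {P : ℕ → ℕ} (hI : ∀ τ, #((range N).filter fun j => A τ (P j) ≠ 0 ∧ A τ (P j) ≠ 1) ≤ u)
    (hP : Set.InjOn P (range N)) (hm : ∀ j < N, P j < m) (J : Finset ℕ)
    (hJ : 2 < a * #J) (hN : ∀ t ∈ J, u * (D + 1) ^ (t + 1) ≤ N) :
    ∃ τ, ∃ t ∈ J, ∃ l ∈ J, t < l ∧ u * (D + 1) ^ t ≤ #(hit u (D + 1) t P (A τ)) ∧
      u * (D + 1) ^ l ≤ #(hit u (D + 1) l P (A τ)) := by
  have hD1 : 0 < D := by
    rcases Nat.eq_zero_or_pos D with h | h
    · rw [h] at hD; norm_num at hD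
    · exact h
  have hD0 : (0 : ℝ) < D := by exact_mod_cast hD1
  have hu1 : (1 : ℝ) ≤ u := by exact_mod_cast hu
  have hJ0 : (0 : ℝ) < #J := by
    rcases Nat.eq_zero_or_pos #J with h | h
    · rw [h] at hJ; norm_num at hJ
    · exact_mod_cast h
  set R := D + 1 with hR
  have hpos : ∀ t, (0 : ℝ) < (D * (u * R ^ t) : ℕ) := fun t => by
    exact_mod_cast Nat.mul_pos hD1 (Nat.mul_pos hu (Nat.pow_pos (by omega)))
  let c : ℕ → ℝ := fun j =>
    ∑ t ∈ J, if j ∈ Ico (u * R ^ t) (u * R ^ (t + 1)) then ((D * (u * R ^ t) : ℕ) : ℝ)⁻¹ else 0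
  have c0 : ∀ j, 0 ≤ c j := fun j => sum_nonneg fun t _ => by
    split_ifs
    · exact (inv_pos.2 (hpos t)).le
    · exact le_rfl
  have key : ∀ s : ℕ → ℝ, (∑ j ∈ range N, if s (P j) = 1 then c j else 0) =
      ∑ t ∈ J, (#(hit u R t P s) : ℝ) * ((D * (u * R ^ t) : ℕ) : ℝ)⁻¹ := by
    intro s
    rw [← sum_filter, sum_comm]
    refine sum_congr rfl fun t ht => ?_
    rw [← sum_filter, sum_const, nsmul_eq_mul]
    congr 3
    ext j
    simp only [hit, mem_filter, mem_range, mem_Ico]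
    have := hN t ht
    constructor
    · rintro ⟨⟨-, h2⟩, h3⟩; exact ⟨h3, h2⟩
    · rintro ⟨h3, h2⟩; exact ⟨⟨by omega, h2⟩, h3⟩
  have hc : ∀ t, #(Ico (u * R ^ t) (u * R ^ (t + 1))) = D * (u * R ^ t) := fun t => by
    rw [Nat.card_Ico, pow_succ, hR]
    apply Nat.sub_eq_of_eq_add
    ring
  have tot : ∑ j ∈ range N, c j = #J := by
    have := key fun _ => 1
    simp only [if_true] at this
    rw [this, card_eq_sum_ones J, Nat.cast_sum]
    refine sum_congr rfl fun t _ => ?_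
    have : hit u R t P (fun _ => 1) = Ico (u * R ^ t) (u * R ^ (t + 1)) :=
      filter_true_of_mem fun j _ => rfl
    rw [this, hc, mul_inv_cancel₀ (hpos t).ne', Nat.cast_one]
  have cb : ∀ j, c j ≤ #J * ((D : ℝ) * u)⁻¹ := fun j => by
    rw [← nsmul_eq_mul]
    refine sum_le_card_nsmul _ _ _ fun t _ => ?_
    split_ifs
    · refine inv_anti₀ (by positivity) ?_
      exact_mod_cast Nat.mul_le_mul_left D (Nat.le_mul_of_pos_right u (Nat.pow_pos (by omega)))
    · positivity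
  have b1 := hA (c, P) ⟨c0, by rw [tot]; exact hJ0, hP, hm⟩ fun j => by
    refine (cb j).trans ?_
    show _ ≤ ε * ∑ j ∈ range N, c j
    rw [tot, mul_comm]
    refine mul_le_mul_of_nonneg_right ?_ hJ0.le
    rw [inv_le_iff_one_le_mul₀ (by positivity)]
    nlinarith
  refine ⟨(c, P), ?_⟩
  by_contra hn
  set s := A (c, P)
  have b2 : val N (c, P) s ≤ (∑ j ∈ range N, if s (P j) = 1 then c j else 0) +
      ∑ j ∈ (range N).filter fun j => s (P j) ≠ 0 ∧ s (P j) ≠ 1, c j := by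
    rw [sum_filter, ← sum_add_distrib]
    refine sum_le_sum fun j _ => ?_
    show c j * s (P j) ≤ _
    by_cases e1 : s (P j) = 1
    · simp [e1]
    · by_cases e0 : s (P j) = 0
      · simp [e0]
      · simp only [e1, e0, if_false, ne_eq, not_false_eq_true, and_self, if_true, zero_add]
        exact mul_le_of_le_one_right (c0 j) (h1 _ _)
  have b3 : #((range N).filter fun j => s (P j) ≠ 0 ∧ s (P j) ≠ 1) ≤ u := hI (c, P)
  have b4 : ∑ j ∈ (range N).filter fun j => s (P j) ≠ 0 ∧ s (P j) ≠ 1, c j ≤ #J * (D : ℝ)⁻¹ :=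
    calc _ ≤ _ := sum_le_card_nsmul _ _ _ fun j _ => cb j
      _ ≤ u • (#J * ((D : ℝ) * u)⁻¹) := nsmul_le_nsmul_left (by positivity) b3
      _ = _ := by rw [nsmul_eq_mul]; field_simp
  have h2 : #(J.filter fun t => u * R ^ t ≤ #(hit u R t P s)) ≤ 1 := by
    refine card_le_one.2 fun t ht l hl => ?_
    rw [mem_filter] at ht hl
    by_contra hne
    rcases lt_or_gt_of_ne hne with h | h
    · exact hn ⟨t, ht.1, l, hl.1, h, ht.2, hl.2⟩
    · exact hn ⟨l, hl.1, t, ht.1, h, hl.2, ht.2⟩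
  have h3 : ∑ t ∈ J, (#(hit u R t P s) : ℝ) * ((D * (u * R ^ t) : ℕ) : ℝ)⁻¹ ≤
      ∑ t ∈ J, ((if u * R ^ t ≤ #(hit u R t P s) then 1 else 0) + (D : ℝ)⁻¹) := by
    refine sum_le_sum fun t _ => ?_
    split_ifs with h
    · refine le_add_of_le_of_nonneg ?_ (by positivity)
      rw [mul_inv_le_iff₀ (hpos t), one_mul, ← hc]
      exact_mod_cast card_filter_le _ _
    · rw [zero_add, mul_inv_le_iff₀ (hpos t), Nat.cast_mul, ← mul_assoc,
        inv_mul_cancel₀ hD0.ne', one_mul]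
      exact_mod_cast (not_le.1 h).le
  rw [sum_add_distrib, sum_boole, sum_const, nsmul_eq_mul] at h3
  have h4 : ((#(J.filter fun t => u * R ^ t ≤ #(hit u R t P s)) : ℕ) : ℝ) ≤ 1 := by
    exact_mod_cast h2
  have h5 : 4 * (D : ℝ)⁻¹ ≤ a := by rwa [mul_inv_le_iff₀ hD0]
  have h6 : a * #J ≤ val N (c, P) s := by rw [← tot]; exact b1
  rw [key] at b2
  nlinarith [mul_le_mul_of_nonneg_left h5 hJ0.le]

open Classical in
theorem two2 {a ε : ℝ} (ha : 0 < a) (hε : 0 < ε) : ∃ C : ℕ, ∀ u : ℕ, 0 < u → ∃ m₀, ∀ m, m₀ ≤ m →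
    ∀ A B : Ty → Ty → ℕ → ℝ, (∀ τ σ x, 0 ≤ A τ σ x) → (∀ τ σ x, 0 ≤ B τ σ x) →
    (∀ τ σ x, A τ σ x + B τ σ x ≤ 1) →
    (∀ τ τ' σ, Good m (u * C) τ → val (u * C) τ (A τ' σ) ≤ val (u * C) τ (A τ σ)) →
    (∀ τ σ σ', Good m (u * C) σ → val (u * C) σ (B τ σ') ≤ val (u * C) σ (B τ σ)) →
    (∀ τ σ, Good m (u * C) τ → (∀ j, τ.1 j ≤ ε * ∑ j ∈ range (u * C), τ.1 j) →
      a * ∑ j ∈ range (u * C), τ.1 j ≤ val (u * C) τ (A τ σ)) →
    (∀ τ σ, Good m (u * C) σ → (∀ j, σ.1 j ≤ ε * ∑ j ∈ range (u * C), σ.1 j) →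
      a * ∑ j ∈ range (u * C), σ.1 j ≤ val (u * C) σ (B τ σ)) →
    (∀ τ P, Good m (u * C) (wt, P) → #((range (u * C)).filter fun j =>
      A τ (wt, P) (P j) ≠ 0 ∧ A τ (wt, P) (P j) ≠ 1) ≤ u) →
    (∀ σ Q, Good m (u * C) (wt, Q) → #((range (u * C)).filter fun j =>
      B (wt, Q) σ (Q j) ≠ 0 ∧ B (wt, Q) σ (Q j) ≠ 1) ≤ u) → False := by
  obtain ⟨D, hD⟩ := exists_nat_ge (4 / a + 1 / ε)
  obtain ⟨K, hK⟩ := exists_nat_gt (2 / a)
  have hD1 : 4 ≤ a * D := by
    rw [mul_comm, ← div_le_iff₀ ha]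
    linarith [one_div_pos.2 hε]
  have hD2 : 1 ≤ ε * D := by
    rw [mul_comm, ← div_le_iff₀ hε]
    linarith [div_pos (by norm_num : (0 : ℝ) < 4) ha]
  have hK1 : 2 < a * K := by rwa [mul_comm, ← div_lt_iff₀ ha]
  refine ⟨(D + 1) ^ ((K + 1) * K), fun u hu => ?_⟩
  set N := u * (D + 1) ^ ((K + 1) * K) with hN
  have mono : ∀ s t, s ≤ t → u * (D + 1) ^ s ≤ u * (D + 1) ^ t := fun s t h =>
    Nat.mul_le_mul_left u (Nat.pow_le_pow_right (by omega) h)
  have hN0 : 0 < N := Nat.mul_pos hu (Nat.pow_pos (by omega))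
  obtain ⟨m₀, hm₀⟩ := ram_tuple (((Fin N → Prop) → Prop) × ((Fin N → Prop) → Prop)) N (2 * N + 1)
  refine ⟨m₀, fun m hm A B A0 B0 AB tA tB fA fB iA iB => ?_⟩
  have A1 : ∀ τ σ x, A τ σ x ≤ 1 := fun τ σ x => by linarith [AB τ σ x, B0 τ σ x]
  have B1 : ∀ τ σ x, B τ σ x ≤ 1 := fun τ σ x => by linarith [AB τ σ x, A0 τ σ x]
  obtain ⟨e, e1, e2, T, hT⟩ := hm₀ m hm fun p =>
    (fun U => ∃ τ, ∀ j : Fin N, U j → A τ (wt, up p) (up p j) = 1,
      fun U => ∃ σ, ∀ j : Fin N, U j →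
        B (wt, fun k => up p (N - 1 - k)) σ (up p (N - 1 - j)) = 1)
  have wpos : 0 < ∑ j ∈ range N, wt j :=
    sum_pos (fun j _ => wt_pos j) ⟨0, mem_range.2 hN0⟩
  have gP : ∀ p : ℕ → ℕ, (∀ i j, i < j → j < N → p i < p j) → (∀ j < N, p j < 2 * N + 1) →
      Good m N (wt, up fun k : Fin N => e (p k)) ∧
      Good m N (wt, fun j => up (fun k : Fin N => e (p k)) (N - 1 - j)) := by
    intro p p1 p2
    have inj : ∀ i < N, ∀ j < N, up (fun k : Fin N => e (p k)) i =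
        up (fun k : Fin N => e (p k)) j → i = j := by
      intro i hi j hj h
      rw [up_eq (fun k => e (p k)) hi, up_eq (fun k => e (p k)) hj] at h
      by_contra hne
      rcases lt_or_gt_of_ne hne with g | g
      · exact absurd h (e2 _ _ (p1 _ _ g hj) (p2 _ hj)).ne
      · exact absurd h (e2 _ _ (p1 _ _ g hi) (p2 _ hi)).ne'
    have lt : ∀ j < N, up (fun k : Fin N => e (p k)) j < m := fun j hj => by
      rw [up_eq (fun k => e (p k)) hj]
      exact e1 _ (p2 _ hj)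
    refine ⟨⟨fun j => (wt_pos j).le, wpos, fun i hi j hj h =>
      inj i (by simpa using hi) j (by simpa using hj) h, lt⟩,
      ⟨fun j => (wt_pos j).le, wpos, fun i hi j hj h => ?_, fun j _ => lt _ (by omega)⟩⟩
    have := inj _ (by omega) _ (by omega) h
    have hi' : i < N := by simpa using hi
    have hj' : j < N := by simpa using hj
    omega
  have h0 := hT (fun j => j) (fun _ _ h _ => h) (fun j hj => by omega)
  obtain ⟨g1, g2⟩ := gP (fun j => j) (fun _ _ h _ => h) (fun j hj => by omega)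
  set P0 := up fun k : Fin N => e k with hP0
  obtain ⟨τ1, t, ht, l, hl, htl, c1, c2⟩ := bands2 (A := fun τ => A τ (wt, P0)) hD1 hD2 hu
    (fun τ => A1 τ _) (fun τ => fA τ _) (fun τ => iA τ _ g1) g1.inj g1.lt
    ((range K).image fun s => (K + 1) * s)
    (by rw [card_image_of_injective _ (mul_right_injective₀ (by omega)), card_range]; exact hK1)
    (fun t ht => by
      obtain ⟨s, hs, rfl⟩ := mem_image.1 ht
      have := mem_range.1 hs
      exact mono _ _ (by nlinarith))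
  obtain ⟨s1, -, rfl⟩ := mem_image.1 ht
  obtain ⟨s2, hs2, rfl⟩ := mem_image.1 hl
  have hs2' := mem_range.1 hs2
  have hs12 : s1 < s2 := lt_of_mul_lt_mul_left htl (Nat.zero_le _)
  have gap : (K + 1) * s1 + K + 1 ≤ (K + 1) * s2 := by nlinarith
  have top : (K + 1) * s2 + 1 ≤ (K + 1) * K := by nlinarith
  generalize (K + 1) * s1 = t at *
  generalize (K + 1) * s2 = l at *
  obtain ⟨σ1, t2, ht2, l2, hl2, htl2, d1, d2⟩ := bands2
    (A := fun σ => B (wt, fun j => P0 (N - 1 - j)) σ) hD1 hD2 hu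
    (fun σ => B1 _ σ) (fun σ => fB _ σ) (fun σ => iB σ _ g2) g2.inj g2.lt (Ico (t + 1) (t + 1 + K))
    (by rw [Nat.card_Ico, Nat.add_sub_cancel_left]; exact hK1)
    (fun s hs => mono _ _ (by have := mem_Ico.1 hs; omega))
  rw [mem_Ico] at ht2 hl2
  have pos : ∀ s, 0 < u * (D + 1) ^ s := fun s => Nat.mul_pos hu (Nat.pow_pos (by omega))
  obtain ⟨i, hi⟩ := card_pos.1 ((pos _).trans_le c1)
  obtain ⟨i2, hi2⟩ := card_pos.1 ((pos _).trans_le d1)
  obtain ⟨-, i_lt, i_in⟩ := mem_hit hi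
  obtain ⟨-, i2_lt, i2_in⟩ := mem_hit hi2
  have m1 := mono (t + 1) l2 (by omega)
  have m2 := mono (t2 + 1) l (by omega)
  have m3 := mono (t + 1) l (by omega)
  have m4 := mono (t2 + 1) l2 (by omega)
  have m5 := mono (l + 1) _ top
  have m6 := mono (l2 + 1) ((K + 1) * K) (by omega)
  have m7 := mono l (l + 1) (by omega)
  obtain ⟨x, x1, x2⟩ := MP_41a254_co.Five.exists_enum _ i2 (le_trans (by omega) c2)
  obtain ⟨y, y1, y2⟩ := MP_41a254_co.Five.exists_enum _ i (le_trans (by omega) d2)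
  have xb : ∀ j < i2, i < x j ∧ x j < N := fun j hj => by
    have := mem_hit (x1 j hj); omega
  have yb : ∀ j < i, i2 < y j ∧ y j < N := fun j hj => by
    have := mem_hit (y1 j hj); omega
  have iN : i < N := by omega
  have i2N : i2 < N := by omega
  let p : ℕ → ℕ := fun j => if j < i then N - (y (i - 1 - j) - i2) else N + (j - i)
  let q : ℕ → ℕ := fun j => if j < i2 then N + (x (i2 - 1 - j) - i) else N - (j - i2)
  have p1 : ∀ j k, j < k → k < N → p j < p k := by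
    intro j k hjk hk
    simp only [p]
    split_ifs with h1 h2 h2
    · have := y2 (i - 1 - k) (i - 1 - j) (by omega) (by omega)
      have := yb (i - 1 - k) (by omega)
      have := yb (i - 1 - j) (by omega)
      omega
    · have := yb (i - 1 - j) (by omega)
      omega
    · omega
    · omega
  have p2 : ∀ j < N, p j < 2 * N + 1 := by
    intro j hj
    simp only [p]
    split_ifs <;> omega
  have q1 : ∀ j k, j < k → k < N → q (N - 1 - j) < q (N - 1 - k) := by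
    intro j k hjk hk
    simp only [q]
    split_ifs with h1 h2 h2
    · have := x2 (i2 - 1 - (N - 1 - j)) (i2 - 1 - (N - 1 - k)) (by omega) (by omega)
      have := xb (i2 - 1 - (N - 1 - j)) (by omega)
      omega
    · omega
    · have := xb (i2 - 1 - (N - 1 - k)) (by omega)
      omega
    · omega
  have q2 : ∀ j < N, q (N - 1 - j) < 2 * N + 1 := by
    intro j hj
    simp only [q]
    split_ifs with h
    · have := xb (i2 - 1 - (N - 1 - j)) (by omega)
      omega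
    · omega
  have hp := (hT p p1 p2).trans h0.symm
  have hq := (hT _ q1 q2).trans h0.symm
  obtain ⟨G1, -⟩ := gP p p1 p2
  obtain ⟨-, G2⟩ := gP _ q1 q2
  obtain ⟨τ', hτ⟩ := (congrFun (congrArg Prod.fst hp)
    fun j : Fin N => A τ1 (wt, P0) (P0 j) = 1).mpr ⟨τ1, fun _ h => h⟩
  obtain ⟨σ', hσ⟩ := (congrFun (congrArg Prod.snd hq)
    fun j : Fin N => B (wt, fun k => P0 (N - 1 - k)) σ1 (P0 (N - 1 - j)) = 1).mpr
      ⟨σ1, fun _ h => h⟩
  set P := up fun k : Fin N => e (p k) with hP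
  set Q := fun j => up (fun k : Fin N => e (q (N - 1 - k))) (N - 1 - j) with hQ
  have Pe : ∀ j < N, P j = e (p j) := fun j hj => up_eq (fun k => e (p k)) hj
  have Qe : ∀ j < N, Q j = e (q j) := fun j hj => by
    have := up_eq (N := N) (fun k => e (q (N - 1 - k))) (j := N - 1 - j) (by omega)
    rw [show N - 1 - (N - 1 - j) = j by omega] at this
    exact this
  have z : P i = Q i2 := by rw [Pe i iN, Qe i2 i2N]; simp [p, q]
  have f1 := force i2N (A0 τ' (wt, P)) (A1 (wt, Q) (wt, P)) (tA (wt, Q) τ' (wt, P) G2) (by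
    intro j hj
    rcases hj.eq_or_lt with rfl | h
    · rw [← z]; exact hτ ⟨i, iN⟩ i_in
    · obtain ⟨b1, b2⟩ := xb (i2 - 1 - j) (by omega)
      have : Q j = P (x (i2 - 1 - j)) := by
        rw [Qe j (by omega), Pe _ b2]
        simp only [p, q, if_pos h, if_neg (not_lt.2 b1.le)]
      rw [this]
      exact hτ ⟨_, b2⟩ (mem_hit (x1 _ (by omega))).2.2)
  have f2 := force iN (B0 (wt, Q) σ') (B1 (wt, Q) (wt, P)) (tB (wt, Q) (wt, P) σ' G1) (by
    intro j hj
    rcases hj.eq_or_lt with rfl | h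
    · rw [z]; exact hσ ⟨i2, i2N⟩ i2_in
    · obtain ⟨b1, b2⟩ := yb (i - 1 - j) (by omega)
      have : P j = Q (y (i - 1 - j)) := by
        rw [Pe j (by omega), Qe _ b2]
        simp only [p, q, if_pos h, if_neg (not_lt.2 b1.le)]
      rw [this]
      exact hσ ⟨_, b2⟩ (mem_hit (y1 _ (by omega))).2.2)
  have := AB (wt, Q) (wt, P) (P i)
  rw [← z] at f1
  linarith

end Pool.Agent.Lib.MP_e28e82_lc.Item
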